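import Mathlib
import Pool.Agent.R361.Logi.Entropy

/-!
# Reordering a composition of three logistic maps can change the topological entropy

Definitions (in `Pool/Agent/R361/Logi/Core.lean` and `Pool/Agent/R361/Logi/Entropy.lean`):
* `logistic a : [0,1] → [0,1]`, `x ↦ a x (1 - x)`, for `a : Icc 1 4`;
* `iterJoin T 𝒰 n` is the common refinement `𝒰 ∨ T⁻¹ 𝒰 ∨ ⋯ ∨ T^{-(n-1)} 𝒰`;
* `minCard 𝒲` is the minimal cardinality of a finite subcover of `𝒲`;
* `entCover T 𝒰 = lim sup (1/n) log N(𝒰 ∨ ⋯ ∨ T^{-(n-1)} 𝒰)` (the limit exists);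
* `topEntropy T` is the supremum of `entCover T 𝒰` over all open covers, that is the
  Adler–Konheim–McAndrew topological entropy.

Proof (found by helper197). `f₄ ∘ f₃ ∘ f₁` maps each of the disjoint intervals `[0, 2/5]` and
`[3/5, 1]` onto `[0, 1]`: entropy at least `log 2`. `G = f₄ ∘ f₁ ∘ f₃` is monotone on four
intervals `A, B, C, D`, `G [0,1] ⊆ [0, 3/4] ⊆ A ∪ B ∪ C` and `G (B ∪ C) ⊆ C`; hence `[0,1]` is the
union of `4 n + 4` sets on which `G^k` is monotone for all `k ≤ n`, and therefore of `O(n²)` sets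
on which all `G^k`, `k ≤ n`, oscillate by less than `ε`: entropy `0`.
-/

set_option autoImplicit false

namespace Pool.Agent.Results.MP_3cd2af_an.ReorderedLogistic

open Set Pool.Agent.R361.Logi

/-- There are parameters `a`, `b`, `c` in `[1, 4]` (namely `4`, `1`, `3`) such that
`f_a ∘ f_b ∘ f_c` has topological entropy `0` while the entropy of `f_a ∘ f_c ∘ f_b` is at least
`log 2`. -/
theorem result :
    (∃ a b c : Icc (1 : ℝ) 4, (a : ℝ) = 4 ∧ (b : ℝ) = 1 ∧ (c : ℝ) = 3 ∧
      topEntropy (logistic a ∘ logistic b ∘ logistic c) = 0 ∧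
      ((Real.log 2 : ℝ) : EReal) ≤ topEntropy (logistic a ∘ logistic c ∘ logistic b)) ∧
    ¬ ∀ a b c : Icc (1 : ℝ) 4, topEntropy (logistic a ∘ logistic b ∘ logistic c) =
      topEntropy (logistic a ∘ logistic c ∘ logistic b) := by
  refine ⟨⟨p4, p1, p3, rfl, rfl, rfl, entropy_GG, entropy_HH⟩, fun h => ?_⟩
  have h1 := h p4 p1 p3
  have h2 : topEntropy (logistic p4 ∘ logistic p1 ∘ logistic p3) = 0 := entropy_GG
  have h3 : ((Real.log 2 : ℝ) : EReal) ≤ topEntropy (logistic p4 ∘ logistic p3 ∘ logistic p1) :=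
    entropy_HH
  rw [← h1, h2, ← EReal.coe_zero, EReal.coe_le_coe_iff] at h3
  exact absurd h3 (not_le.2 (Real.log_pos (by norm_num)))

end Pool.Agent.Results.MP_3cd2af_an.ReorderedLogistic
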